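import Pool.Agent.Run7.h477.WC.Stm

/-!
# EXIST: covers with group `(ℤ/p)²` with given Artin-Schreier polynomials
-/

set_option autoImplicit false
set_option linter.unusedSectionVars false

open Polynomial Run7.h477.WC

namespace Run7.h576.WC

universe u

section frob

variable {p : ℕ} [hp : Fact p.Prime] {L : Type*} [Field L] [CharP L p]

theorem val_castHom (a : ZMod p) : ((a.val : ℕ) : L) = ZMod.castHom (dvd_refl p) L a := by
  rw [ZMod.castHom_apply, ZMod.natCast_val]

theorem exists_val (x : L) (hx : x ^ p = x) : ∃ n : ZMod p, x = ((n.val : ℕ) : L) := by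
  have h := (Subfield.mem_bot_iff_pow_eq_self L p).2 hx
  rw [← ZMod.fieldRange_castHom_eq_bot p] at h
  obtain ⟨n, hn⟩ := h
  exact ⟨n, by rw [val_castHom, hn]⟩

theorem val_add (a b : ZMod p) : (((a + b).val : ℕ) : L) = ((a.val : ℕ) : L) + ((b.val : ℕ) : L) := by
  rw [val_castHom, val_castHom, val_castHom, map_add]

theorem val_mul (a b : ZMod p) : (((a * b).val : ℕ) : L) = ((a.val : ℕ) : L) * ((b.val : ℕ) : L) := by
  rw [val_castHom, val_castHom, val_castHom, map_mul]

theorem val_inj {a b : ZMod p} (h : ((a.val : ℕ) : L) = ((b.val : ℕ) : L)) : a = b := by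
  rw [val_castHom, val_castHom] at h
  exact (ZMod.castHom (dvd_refl p) L).injective h

theorem val_pow (a : ZMod p) : ((a.val : ℕ) : L) ^ p = ((a.val : ℕ) : L) := by
  rw [val_castHom, ← map_pow, ZMod.pow_card]

/-- two Artin-Schreier generators of the same element differ by a constant -/
theorem as_diff {x y f : L} (hx : x ^ p - x = f) (hy : y ^ p - y = f) :
    ∃ n : ZMod p, x = y + ((n.val : ℕ) : L) := by
  obtain ⟨n, hn⟩ := exists_val (p := p) (x - y) (by rw [sub_pow_char x y]; linear_combination hx - hy)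
  exact ⟨n, by rw [← hn]; ring⟩

end frob

section poly

variable {p : ℕ} [hp : Fact p.Prime] {K : Type u} [Field K] [CharP K p]

/-- The Artin-Schreier polynomial. -/
noncomputable def AS (p : ℕ) {K : Type u} [Field K] (f : K[X]) : (RatFunc K)[X] :=
  X ^ p - X - C (algebraMap K[X] (RatFunc K) f)

theorem AS_sep (f : K[X]) : (AS p f).Separable := by
  unfold AS Polynomial.Separable
  rw [derivative_sub, derivative_sub, derivative_X_pow, derivative_X, derivative_C, sub_zero,
    CharP.cast_eq_zero, map_zero, zero_mul, zero_sub]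
  exact ⟨0, -1, by ring⟩

theorem AS_coprime {f₁ f₂ : K[X]} (h : f₁ ≠ f₂) : IsCoprime (AS p f₁) (AS p f₂) := by
  have h1 : algebraMap K[X] (RatFunc K) f₂ - algebraMap K[X] (RatFunc K) f₁ ≠ 0 := by
    rw [← map_sub]
    exact RatFunc.algebraMap_ne_zero (sub_ne_zero.2 h.symm)
  refine ⟨C (algebraMap K[X] (RatFunc K) f₂ - algebraMap K[X] (RatFunc K) f₁)⁻¹,
    -C (algebraMap K[X] (RatFunc K) f₂ - algebraMap K[X] (RatFunc K) f₁)⁻¹, ?_⟩
  have e : C (algebraMap K[X] (RatFunc K) f₂ - algebraMap K[X] (RatFunc K) f₁)⁻¹ *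
      C (algebraMap K[X] (RatFunc K) f₂ - algebraMap K[X] (RatFunc K) f₁) = 1 := by
    rw [← C_mul, inv_mul_cancel₀ h1, C_1]
  rw [← e, C_sub]
  unfold AS
  ring

theorem AS_natDegree (f : K[X]) : (AS p f).natDegree = p := by
  unfold AS
  rw [natDegree_sub_C]
  exact FiniteField.X_pow_card_sub_X_natDegree_eq _ hp.out.one_lt

theorem AS_monic (f : K[X]) : (AS p f).Monic := by
  unfold AS
  rw [sub_sub]
  refine monic_X_pow_sub ?_
  refine lt_of_le_of_lt (degree_add_le _ _) (max_lt ?_ ?_)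
  · rw [degree_X]
    exact_mod_cast hp.out.one_lt
  · exact lt_of_le_of_lt degree_C_le (by exact_mod_cast hp.out.pos)

/-- an Artin-Schreier generator in `K(x)` is a polynomial -/
theorem as_poly {z : RatFunc K} {f : K[X]} (h : z ^ p - z = algebraMap K[X] (RatFunc K) f) :
    ∃ g : K[X], f = g ^ p - g := by
  have h1 : IsIntegral K[X] z := by
    refine ⟨X ^ p - X - C f, ?_, ?_⟩
    · rw [sub_sub]
      refine monic_X_pow_sub ?_
      refine lt_of_le_of_lt (degree_add_le _ _) (max_lt ?_ ?_)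
      · rw [degree_X]
        exact_mod_cast hp.out.one_lt
      · exact lt_of_le_of_lt degree_C_le (by exact_mod_cast hp.out.pos)
    · rw [eval₂_sub, eval₂_sub, eval₂_pow, eval₂_X, eval₂_C, h, sub_self]
  obtain ⟨g, rfl⟩ := IsIntegrallyClosed.isIntegral_iff.1 h1
  refine ⟨g, ?_⟩
  apply RatFunc.algebraMap_injective K
  rw [← h, map_sub, map_pow]

theorem as_deg (g : K[X]) : p ∣ (g ^ p - g).natDegree := by
  by_cases h : g.natDegree = 0
  · obtain ⟨c, rfl⟩ := natDegree_eq_zero.1 h
    rw [← C_pow, ← C_sub, natDegree_C]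
    exact dvd_zero p
  · have h1 : (g ^ p).natDegree = p * g.natDegree := natDegree_pow g p
    rw [natDegree_sub_eq_left_of_natDegree_lt, h1]
    · exact dvd_mul_right p _
    · rw [h1]
      have := hp.out.one_lt
      nlinarith [Nat.pos_of_ne_zero h]

end poly

section main

variable {p : ℕ} [hp : Fact p.Prime] {K : Type u} [Field K] [CharP K p]

/-- The combination of the two polynomials. -/
noncomputable def fa (a : ZMod p × ZMod p) (f₁ f₂ : K[X]) : K[X] :=
  (a.1.val : K[X]) * f₁ + (a.2.val : K[X]) * f₂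

variable (L : Type u) [Field L] [Algebra K[X] L] [Algebra (RatFunc K) L]
  [IsScalarTower K[X] (RatFunc K) L] [IsGalois (RatFunc K) L] [FiniteDimensional (RatFunc K) L]
  [CharP L p]

theorem fixed_mem (y : L) (h : ∀ σ : Gal(L/RatFunc K), σ y = y) :
    ∃ z : RatFunc K, algebraMap (RatFunc K) L z = y :=
  (IsGaloisGroup.isInvariant (G := Gal(L/RatFunc K)) (A := RatFunc K) (B := L)).isInvariant y h

variable {L}

theorem as_smul {y : L} {f : K[X]} (hy : y ^ p - y = algebraMap K[X] L f) (σ : Gal(L/RatFunc K)) :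
    ∃ n : ZMod p, σ y = y + ((n.val : ℕ) : L) := by
  refine as_diff (f := algebraMap K[X] L f) ?_ hy
  have h := congrArg σ hy
  rw [map_sub, map_pow] at h
  rw [h, IsScalarTower.algebraMap_apply K[X] (RatFunc K) L, σ.commutes]

/-- The cocycle of an Artin-Schreier generator. -/
noncomputable def cc {y : L} {f : K[X]} (hy : y ^ p - y = algebraMap K[X] L f)
    (σ : Gal(L/RatFunc K)) : ZMod p := (as_smul hy σ).choose

theorem cc_spec {y : L} {f : K[X]} (hy : y ^ p - y = algebraMap K[X] L f)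
    (σ : Gal(L/RatFunc K)) : σ y = y + ((cc hy σ).val : L) := (as_smul hy σ).choose_spec

theorem cc_mul {y : L} {f : K[X]} (hy : y ^ p - y = algebraMap K[X] L f)
    (σ τ : Gal(L/RatFunc K)) : cc hy (σ * τ) = cc hy σ + cc hy τ := by
  apply val_inj (p := p) (L := L)
  have h1 : (σ * τ) y = σ (τ y) := rfl
  rw [cc_spec hy (σ * τ), cc_spec hy τ, map_add, map_natCast, cc_spec hy σ] at h1
  rw [val_add]
  linear_combination h1

theorem cc_one {y : L} {f : K[X]} (hy : y ^ p - y = algebraMap K[X] L f) :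
    cc hy (1 : Gal(L/RatFunc K)) = 0 := by
  have h := cc_mul hy (1 : Gal(L/RatFunc K)) 1
  rw [mul_one] at h
  exact left_eq_add.1 h

variable {y₁ y₂ : L} {f₁ f₂ : K[X]} (h₁ : y₁ ^ p - y₁ = algebraMap K[X] L f₁)
  (h₂ : y₂ ^ p - y₂ = algebraMap K[X] L f₂)

/-- The homomorphism of the Galois group to `(ℤ/p)²`. -/
noncomputable def dd : Gal(L/RatFunc K) →* Pp p where
  toFun σ := Multiplicative.ofAdd (cc h₁ σ, cc h₂ σ)
  map_one' := by rw [cc_one, cc_one]; rfl
  map_mul' σ τ := by rw [cc_mul, cc_mul]; rfl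

/-- The combination of the two generators. -/
noncomputable def ya (a : ZMod p × ZMod p) (y₁ y₂ : L) : L := (a.1.val : L) * y₁ + (a.2.val : L) * y₂

include h₁ h₂ in
theorem ya_pow (a : ZMod p × ZMod p) :
    ya a y₁ y₂ ^ p - ya a y₁ y₂ = algebraMap K[X] L (fa a f₁ f₂) := by
  unfold ya fa
  rw [add_pow_char _ _ p, mul_pow, mul_pow, val_pow, val_pow, map_add, map_mul, map_mul, map_natCast,
    map_natCast, ← h₁, ← h₂]
  ring

theorem ya_smul (a : ZMod p × ZMod p) (σ : Gal(L/RatFunc K)) :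
    σ (ya a y₁ y₂) = ya a y₁ y₂ + ((chi a (dd h₁ h₂ σ)).val : L) := by
  unfold ya chi
  rw [val_add, val_mul, val_mul, map_add, map_mul, map_mul, map_natCast, map_natCast,
    cc_spec h₁ σ, cc_spec h₂ σ]
  show _ = _ + (_ * ((cc h₁ σ).val : L) + _ * ((cc h₂ σ).val : L))
  ring

include h₁ h₂ in
theorem dd_surj (hf : ∀ a : ZMod p × ZMod p, a ≠ 0 → ¬ p ∣ (fa a f₁ f₂).natDegree) :
    Function.Surjective (dd h₁ h₂) := by
  by_contra hns
  -- the image as a subspace
  let S : AddSubgroup (ZMod p × ZMod p) := Subgroup.toAddSubgroup' (dd h₁ h₂).range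
  let S' : Submodule (ZMod p) (ZMod p × ZMod p) := AddSubgroup.toZModSubmodule p S
  have hmem : ∀ v : ZMod p × ZMod p, v ∈ S' ↔ ∃ σ, dd h₁ h₂ σ = Multiplicative.ofAdd v :=
    fun v => Iff.rfl
  have hlt : S' < ⊤ := by
    rw [lt_top_iff_ne_top]
    intro htop
    apply hns
    intro v
    have h : Multiplicative.toAdd v ∈ S' := by rw [htop]; trivial
    exact (hmem _).1 h
  obtain ⟨φ, hφ, hφ'⟩ := Submodule.exists_le_ker_of_lt_top S' hlt
  let a : ZMod p × ZMod p := (φ (1, 0), φ (0, 1))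
  have hφa : ∀ v, φ v = a.1 * v.1 + a.2 * v.2 := by
    intro v
    have e : v = v.1 • ((1, 0) : ZMod p × ZMod p) + v.2 • ((0, 1) : ZMod p × ZMod p) := by
      ext <;> simp
    conv_lhs => rw [e]
    rw [map_add, map_smul, map_smul, smul_eq_mul, smul_eq_mul, mul_comm, mul_comm v.2]
  have ha : a ≠ 0 := by
    intro h0
    apply hφ
    refine LinearMap.ext fun v => ?_
    rw [hφa, h0]
    simp
  have hfix : ∀ σ : Gal(L/RatFunc K), σ (ya a y₁ y₂) = ya a y₁ y₂ := by
    intro σ
    rw [ya_smul h₁ h₂]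
    have h1 : chi a (dd h₁ h₂ σ) = 0 := by
      have h2 : φ (Multiplicative.toAdd (dd h₁ h₂ σ)) = 0 :=
        hφ' ((hmem _).2 ⟨σ, rfl⟩)
      rw [hφa] at h2
      exact h2
    rw [h1, ZMod.val_zero, Nat.cast_zero, add_zero]
  obtain ⟨z, hz⟩ := fixed_mem L _ hfix
  have h3 : z ^ p - z = algebraMap K[X] (RatFunc K) (fa a f₁ f₂) := by
    apply (algebraMap (RatFunc K) L).injective
    rw [map_sub, map_pow, hz, ya_pow h₁ h₂, ← IsScalarTower.algebraMap_apply]
  obtain ⟨g, hg⟩ := as_poly h3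
  apply hf a ha
  rw [hg]
  exact as_deg g

include h₁ h₂ in
theorem dd_inj (hspan : Algebra.adjoin (RatFunc K) ((AS p f₁ * AS p f₂).rootSet L) = ⊤) :
    Function.Injective (dd h₁ h₂) := by
  rw [injective_iff_map_eq_one]
  intro σ hσ
  have hc : (cc h₁ σ, cc h₂ σ) = (0, 0) := Multiplicative.ofAdd.injective hσ
  have hc1 : σ y₁ = y₁ := by
    rw [cc_spec h₁ σ, show cc h₁ σ = 0 from congrArg Prod.fst hc, ZMod.val_zero, Nat.cast_zero,
      add_zero]
  have hc2 : σ y₂ = y₂ := by
    rw [cc_spec h₂ σ, show cc h₂ σ = 0 from congrArg Prod.snd hc, ZMod.val_zero, Nat.cast_zero,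
      add_zero]
  have key : ∀ (y : L) (f : K[X]), y ^ p - y = algebraMap K[X] L f → σ y = y →
      ∀ r : L, aeval r (AS p f) = 0 → σ r = r := by
    intro y f hy hσy r hr
    have hr' : r ^ p - r = algebraMap K[X] L f := by
      unfold AS at hr
      rw [map_sub, map_sub, map_pow, aeval_X, aeval_C, ← IsScalarTower.algebraMap_apply] at hr
      exact sub_eq_zero.1 hr
    obtain ⟨n, rfl⟩ := as_diff hr' hy
    rw [map_add, map_natCast, hσy]
  have h : (σ : L →ₐ[RatFunc K] L) = AlgHom.id (RatFunc K) L := by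
    refine AlgHom.ext_of_adjoin_eq_top hspan ?_
    intro r hr
    have hr' := (mem_rootSet.1 hr).2
    rw [map_mul] at hr'
    show σ r = r
    rcases mul_eq_zero.1 hr' with h | h
    · exact key y₁ f₁ h₁ hc1 r h
    · exact key y₂ f₂ h₂ hc2 r h
  refine AlgEquiv.ext fun r => ?_
  exact DFunLike.congr_fun h r

end main

theorem exists_root {F L : Type*} [Field F] [Field L] [Algebra F L] (P Q : F[X])
    (h : (Q.map (algebraMap F L)).Splits) (hQ : Q ≠ 0) (hPQ : P ∣ Q) (hP : P.natDegree ≠ 0) :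
    ∃ y : L, aeval y P = 0 := by
  have h1 : (P.map (algebraMap F L)).Splits :=
    Splits.of_dvd h (Polynomial.map_ne_zero hQ) (Polynomial.map_dvd (algebraMap F L) hPQ)
  have h2 : (P.map (algebraMap F L)).degree ≠ 0 := by
    rw [degree_map]
    intro h0
    exact hP (natDegree_eq_zero_iff_degree_le_zero.2 h0.le)
  obtain ⟨y, hy⟩ := Splits.exists_eval_eq_zero h1 h2
  exact ⟨y, by rw [aeval_def, ← eval_map, hy]⟩

theorem t_EXIST : S_EXIST.{u} := by
  intro p hp K _ _ _ f₁ f₂ hf
  have hne : f₁ ≠ f₂ := by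
    rintro rfl
    apply hf (1, -1) (by simp)
    have h1 : ((ZMod.val (1 : ZMod p) : ℕ) : K) + ((ZMod.val (-1 : ZMod p) : ℕ) : K) = 0 := by
      rw [← val_add, add_neg_cancel, ZMod.val_zero, Nat.cast_zero]
    have h2 : ((ZMod.val (1 : ZMod p) : ℕ) : K[X]) + ((ZMod.val (-1 : ZMod p) : ℕ) : K[X]) = 0 := by
      have := congrArg C h1
      rwa [C_add, C_0, map_natCast, map_natCast] at this
    show p ∣ (((ZMod.val (1 : ZMod p) : ℕ) : K[X]) * f₁ + ((ZMod.val (-1 : ZMod p) : ℕ) : K[X]) * f₁).natDegree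
    rw [← add_mul, h2, zero_mul, natDegree_zero]
    exact dvd_zero p
  obtain ⟨Q, hQ⟩ : ∃ Q : (RatFunc K)[X], Q = AS p f₁ * AS p f₂ := ⟨_, rfl⟩
  have hQ0 : Q ≠ 0 := by
    rw [hQ]
    exact ((AS_monic f₁).mul (AS_monic f₂)).ne_zero
  have hQs : Q.Separable := by
    rw [hQ]
    exact (AS_sep f₁).mul (AS_sep f₂) (AS_coprime hne)
  have hgal : IsGalois (RatFunc K) Q.SplittingField := IsGalois.of_separable_splitting_field hQs
  have hchar : CharP Q.SplittingField p :=
    charP_of_injective_algebraMap (algebraMap (RatFunc K) Q.SplittingField).injective p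
  have hroot : ∀ f : K[X], AS p f ∣ Q →
      ∃ y : Q.SplittingField, y ^ p - y = algebraMap K[X] Q.SplittingField f := by
    intro f hd
    obtain ⟨y, hy⟩ := exists_root (L := Q.SplittingField) (AS p f) Q (SplittingField.splits Q) hQ0
      hd (by rw [AS_natDegree]; exact hp.out.ne_zero)
    refine ⟨y, ?_⟩
    unfold AS at hy
    rw [map_sub, map_sub, map_pow, aeval_X, aeval_C, ← IsScalarTower.algebraMap_apply] at hy
    exact sub_eq_zero.1 hy
  obtain ⟨y₁, h₁⟩ := hroot f₁ (hQ ▸ dvd_mul_right _ _)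
  obtain ⟨y₂, h₂⟩ := hroot f₂ (hQ ▸ dvd_mul_left _ _)
  have hspan := IsSplittingField.adjoin_rootSet Q.SplittingField Q
  have hinj : Function.Injective (dd h₁ h₂) := dd_inj h₁ h₂ (by rw [← hQ]; exact hspan)
  have hsurj : Function.Surjective (dd h₁ h₂) := dd_surj h₁ h₂ hf
  let e : Gal(Q.SplittingField/RatFunc K) ≃* Pp p := MulEquiv.ofBijective (dd h₁ h₂) ⟨hinj, hsurj⟩
  let act : MulSemiringAction (Pp p) Q.SplittingField :=
    MulSemiringAction.compHom Q.SplittingField (e.symm : Pp p →* Gal(Q.SplittingField/RatFunc K))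
  have hsm : ∀ (σ : Pp p) (y : Q.SplittingField), σ • y = (e.symm σ) y := fun _ _ => rfl
  have hcomm : SMulCommClass (Pp p) K[X] Q.SplittingField := ⟨fun σ r y => by
    rw [hsm, hsm, Algebra.smul_def, map_mul, Algebra.smul_def,
      IsScalarTower.algebraMap_apply K[X] (RatFunc K) Q.SplittingField, AlgEquiv.commutes]⟩
  have hG : IsGaloisGroup (Pp p) (RatFunc K) Q.SplittingField :=
    IsGaloisGroup.of_mulEquiv (G := Gal(Q.SplittingField/RatFunc K)) e.symm (fun _ _ => rfl)
  have hya : ∀ (a : ZMod p × ZMod p) (σ : Pp p), σ • (ya a y₁ y₂ : Q.SplittingField) =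
      ya a y₁ y₂ + ((chi a σ).val : Q.SplittingField) := by
    intro a σ
    rw [hsm, ya_smul h₁ h₂]
    have : dd h₁ h₂ (e.symm σ) = σ := e.apply_symm_apply σ
    rw [this]
  have hinv : ∀ y : Q.SplittingField, (∀ σ : Pp p, σ • y = y) →
      ∃ z : RatFunc K, algebraMap (RatFunc K) Q.SplittingField z = y :=
    fun y h => hG.isInvariant.isInvariant y h
  have hint : ∀ a : ZMod p × ZMod p, IsIntegral K[X] (ya a y₁ y₂ : Q.SplittingField) := by
    intro a
    refine ⟨X ^ p - X - C (fa a f₁ f₂), ?_, ?_⟩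
    · rw [sub_sub]
      refine monic_X_pow_sub ?_
      refine lt_of_le_of_lt (degree_add_le _ _) (max_lt ?_ ?_)
      · rw [degree_X]
        exact_mod_cast hp.out.one_lt
      · exact lt_of_le_of_lt degree_C_le (by exact_mod_cast hp.out.pos)
    · rw [eval₂_sub, eval₂_sub, eval₂_pow, eval₂_X, eval₂_C, ya_pow h₁ h₂, sub_self]
  have hinjX : Function.Injective (algebraMap K[X] Q.SplittingField) := by
    rw [IsScalarTower.algebraMap_eq K[X] (RatFunc K) Q.SplittingField]
    exact (algebraMap (RatFunc K) Q.SplittingField).injective.comp (RatFunc.algebraMap_injective K)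
  refine ⟨{ L := Q.SplittingField, galois := hG, torsor := ?_ }, fun a => ⟨ya a y₁ y₂, hya a,
    ya_pow h₁ h₂ a⟩⟩
  refine ⟨?_, ?_, ?_, ?_, ?_⟩
  · intro x y hxy
    exact hinjX (congrArg Subtype.val hxy)
  · exact IsIntegralClosure.finite K[X] (RatFunc K) Q.SplittingField
      (integralClosure K[X] Q.SplittingField)
  · intro σ b
    refine Subtype.ext ?_
    rw [integralClosure.coe_smul]
    exact smul_algebraMap σ b
  · intro a ha
    obtain ⟨z, hz⟩ := hinv a.1 (fun σ => by
      rw [← integralClosure.coe_smul, ha σ])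
    have hzi : IsIntegral K[X] z := by
      have h1 : IsIntegral K[X] (a.1) := a.2
      rw [← hz] at h1
      exact (isIntegral_algebraMap_iff (algebraMap (RatFunc K) Q.SplittingField).injective).1 h1
    obtain ⟨g, hg⟩ := IsIntegrallyClosed.isIntegral_iff.1 hzi
    refine ⟨g, Subtype.ext ?_⟩
    show algebraMap K[X] Q.SplittingField g = a.1
    rw [IsScalarTower.algebraMap_apply K[X] (RatFunc K) Q.SplittingField, hg, hz]
  · intro σ hσ I hI
    obtain ⟨a, ha⟩ : ∃ a : ZMod p × ZMod p, chi a σ ≠ 0 := by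
      by_contra hall
      push Not at hall
      apply hσ
      have h1 := hall (1, 0)
      have h2 := hall (0, 1)
      unfold chi at h1 h2
      rw [one_mul, zero_mul, add_zero] at h1
      rw [one_mul, zero_mul, zero_add] at h2
      apply Multiplicative.toAdd.injective
      exact Prod.ext h1 h2
    refine ⟨⟨ya a y₁ y₂, hint a⟩, ?_⟩
    intro hmem
    apply hI.ne_top
    have e1 : (σ • (⟨ya a y₁ y₂, hint a⟩ : integralClosure K[X] Q.SplittingField) -
        ⟨ya a y₁ y₂, hint a⟩) = ((chi a σ).val : integralClosure K[X] Q.SplittingField) := by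
      refine Subtype.ext ?_
      show (σ • (ya a y₁ y₂ : Q.SplittingField)) - ya a y₁ y₂ = _
      rw [hya, add_sub_cancel_left]
      rfl
    rw [e1] at hmem
    rw [Ideal.eq_top_iff_one]
    have e2 : (1 : integralClosure K[X] Q.SplittingField) =
        (((chi a σ)⁻¹).val : integralClosure K[X] Q.SplittingField) *
          ((chi a σ).val : integralClosure K[X] Q.SplittingField) := by
      refine Subtype.ext ?_
      show (1 : Q.SplittingField) = (((chi a σ)⁻¹).val : Q.SplittingField) *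
        ((chi a σ).val : Q.SplittingField)
      rw [← val_mul, inv_mul_cancel₀ ha, ZMod.val_one, Nat.cast_one]
    rw [e2]
    exact I.mul_mem_left _ hmem

end Run7.h576.WC
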