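import Pool.Agent.Run7.h477.WC.Stm

/-!
# OINF: the local ring at infinity
-/

set_option autoImplicit false

open Polynomial Run7.h477.WC

namespace Run7.h576.WC

universe u

variable {K : Type u} [Field K]

open scoped Classical in
/-- the valuation at infinity -/
noncomputable def vi (K : Type u) [Field K] : Valuation (RatFunc K) (WithZero (Multiplicative ℤ)) :=
  RatFunc.inftyValuation K

open scoped Classical in
theorem vi_eq {x : RatFunc K} (hx : x ≠ 0) : vi K x = WithZero.exp x.intDegree := by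
  unfold vi
  rw [RatFunc.inftyValuation_apply, RatFunc.inftyValuation_of_nonzero K hx]

open scoped Classical in
theorem mem_Oinf {x : RatFunc K} : x ∈ Oinf K ↔ vi K x ≤ 1 := Iff.rfl

theorem mem_Oinf' {x : RatFunc K} (hx : x ≠ 0) : x ∈ Oinf K ↔ x.intDegree ≤ 0 := by
  rw [mem_Oinf, vi_eq hx, ← WithZero.exp_zero, WithZero.exp_le_exp]

theorem isUnit_Oinf {x : Oinf K} : IsUnit x ↔ (x : RatFunc K) ≠ 0 ∧ (x : RatFunc K).intDegree = 0 := by
  constructor
  · rintro ⟨u, rfl⟩
    have h1 : ((u : Oinf K) : RatFunc K) ≠ 0 := fun h => u.ne_zero (Subtype.ext h)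
    have h2 : (((u⁻¹ : (Oinf K)ˣ) : Oinf K) : RatFunc K) ≠ 0 := fun h => u⁻¹.ne_zero (Subtype.ext h)
    refine ⟨h1, ?_⟩
    have h3 : ((u : Oinf K) : RatFunc K) * (((u⁻¹ : (Oinf K)ˣ) : Oinf K) : RatFunc K) = 1 :=
      congrArg Subtype.val (u.mul_inv)
    have h4 := RatFunc.intDegree_mul h1 h2
    rw [h3, RatFunc.intDegree_one] at h4
    have h5 := (mem_Oinf' h1).1 (u : Oinf K).2
    have h6 := (mem_Oinf' h2).1 ((u⁻¹ : (Oinf K)ˣ) : Oinf K).2
    omega
  · rintro ⟨h1, h2⟩
    have h3 : (x : RatFunc K)⁻¹ ∈ Oinf K := by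
      rw [mem_Oinf' (inv_ne_zero h1), RatFunc.intDegree_inv, h2, neg_zero]
    exact IsUnit.of_mul_eq_one ⟨(x : RatFunc K)⁻¹, h3⟩ (Subtype.ext (mul_inv_cancel₀ h1))

theorem exists_const (x : Oinf K) : ∃ c : K, ∃ y : Oinf K, (y : RatFunc K) = x - RatFunc.C c ∧
    ¬ IsUnit y := by
  by_cases h0 : (x : RatFunc K) = 0
  · refine ⟨0, x, by rw [map_zero, sub_zero], ?_⟩
    rw [isUnit_Oinf]
    exact fun h => h.1 h0
  have h1 := (mem_Oinf' h0).1 x.2
  rcases lt_or_eq_of_le h1 with h2 | h2
  · refine ⟨0, x, by rw [map_zero, sub_zero], ?_⟩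
    rw [isUnit_Oinf]
    exact fun h => absurd h.2 h2.ne
  · let c := (x : RatFunc K).num.leadingCoeff
    have hd : (x : RatFunc K).denom.Monic := RatFunc.monic_denom _
    have hn : (x : RatFunc K).num ≠ 0 := RatFunc.num_ne_zero h0
    have hdeg : (x : RatFunc K).num.natDegree = (x : RatFunc K).denom.natDegree := by
      unfold RatFunc.intDegree at h2
      omega
    have hc : c ≠ 0 := leadingCoeff_ne_zero.2 hn
    have e1 : (x : RatFunc K) - RatFunc.C c =
        algebraMap K[X] (RatFunc K) ((x : RatFunc K).num - C c * (x : RatFunc K).denom) /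
          algebraMap K[X] (RatFunc K) (x : RatFunc K).denom := by
      have hd0 : algebraMap K[X] (RatFunc K) (x : RatFunc K).denom ≠ 0 :=
        RatFunc.algebraMap_ne_zero hd.ne_zero
      rw [eq_div_iff hd0, sub_mul, map_sub, map_mul, RatFunc.algebraMap_C]
      congr 1
      rw [← eq_div_iff hd0]
      exact (RatFunc.num_div_denom (x : RatFunc K)).symm
    by_cases h3 : (x : RatFunc K) - RatFunc.C c = 0
    · refine ⟨c, 0, h3.symm, not_isUnit_zero⟩
    · have hne : (x : RatFunc K).num - C c * (x : RatFunc K).denom ≠ 0 := by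
        intro h
        rw [h, map_zero, zero_div] at e1
        exact h3 e1
      have hlt : ((x : RatFunc K).num - C c * (x : RatFunc K).denom).natDegree <
          (x : RatFunc K).denom.natDegree := by
        rw [← hdeg]
        apply Polynomial.natDegree_lt_natDegree hne
        apply Polynomial.degree_sub_lt_left
        · rw [Polynomial.degree_C_mul hc, Polynomial.degree_eq_natDegree hn,
            Polynomial.degree_eq_natDegree hd.ne_zero, hdeg]
        · exact hn
        · rw [Polynomial.leadingCoeff_mul, hd.leadingCoeff, mul_one, Polynomial.leadingCoeff_C]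
      have h4 : ((x : RatFunc K) - RatFunc.C c).intDegree < 0 := by
        rw [e1, div_eq_mul_inv, RatFunc.intDegree_mul (RatFunc.algebraMap_ne_zero hne)
          (inv_ne_zero (RatFunc.algebraMap_ne_zero hd.ne_zero)), RatFunc.intDegree_inv,
          RatFunc.intDegree_polynomial, RatFunc.intDegree_polynomial]
        omega
      refine ⟨c, ⟨_, (mem_Oinf' h3).2 h4.le⟩, rfl, ?_⟩
      rw [isUnit_Oinf]
      exact fun h => absurd h.2 h4.ne

/-- The constants. -/
noncomputable def cst (K : Type u) [Field K] : K →+* Oinf K where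
  toFun c := ⟨RatFunc.C c, by
    by_cases hc : c = 0
    · rw [hc, map_zero]; exact zero_mem _
    · rw [mem_Oinf' (by simpa using hc), RatFunc.intDegree_C]⟩
  map_one' := Subtype.ext (map_one _)
  map_mul' a b := Subtype.ext (map_mul _ _ _)
  map_zero' := Subtype.ext (map_zero _)
  map_add' a b := Subtype.ext (map_add _ _ _)

theorem residue_surj : Function.Surjective ((IsLocalRing.residue (Oinf K)).comp (cst K)) := by
  intro r
  obtain ⟨x, rfl⟩ := IsLocalRing.residue_surjective r
  obtain ⟨c, y, h1, h2⟩ := exists_const x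
  refine ⟨c, ?_⟩
  have e : x = cst K c + y := by
    refine Subtype.ext ?_
    show (x : RatFunc K) = RatFunc.C c + (y : RatFunc K)
    rw [h1]; ring
  rw [e, map_add, (IsLocalRing.residue_eq_zero_iff y).2 ((IsLocalRing.mem_maximalIdeal y).2 h2),
    add_zero]
  rfl

/-- One over `x`. -/
noncomputable def pii (K : Type u) [Field K] : Oinf K := ⟨(RatFunc.X)⁻¹, by
  rw [mem_Oinf' (inv_ne_zero RatFunc.X_ne_zero), RatFunc.intDegree_inv, RatFunc.intDegree_X]
  decide⟩

theorem t_OINF : S_OINF.{u} := by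
  intro K _ _
  refine ⟨?_, pii K, ?_, ?_⟩
  · exact IsAlgClosed.of_ringEquiv K _ (RingEquiv.ofBijective
      ((IsLocalRing.residue (Oinf K)).comp (cst K)) ⟨RingHom.injective _, residue_surj⟩)
  · have hX : ((pii K : Oinf K) : RatFunc K) ≠ 0 := inv_ne_zero RatFunc.X_ne_zero
    have hd : ((pii K : Oinf K) : RatFunc K).intDegree = -1 := by
      show ((RatFunc.X : RatFunc K)⁻¹).intDegree = -1
      rw [RatFunc.intDegree_inv, RatFunc.intDegree_X]
    refine ⟨fun h => ?_, ?_⟩
    · have := (isUnit_Oinf.1 h).2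
      omega
    · intro a b hab
      have e : ((pii K : Oinf K) : RatFunc K) = (a : RatFunc K) * (b : RatFunc K) :=
        congrArg Subtype.val hab
      have ha : (a : RatFunc K) ≠ 0 := by
        intro h; rw [h, zero_mul] at e; exact hX e
      have hb : (b : RatFunc K) ≠ 0 := by
        intro h; rw [h, mul_zero] at e; exact hX e
      have h1 := (mem_Oinf' ha).1 a.2
      have h2 := (mem_Oinf' hb).1 b.2
      rw [e, RatFunc.intDegree_mul ha hb] at hd
      rw [isUnit_Oinf, isUnit_Oinf]
      rcases eq_or_ne (a : RatFunc K).intDegree 0 with h3 | h3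
      · exact Or.inl ⟨ha, h3⟩
      · exact Or.inr ⟨hb, by omega⟩
  · intro h hh
    have h1 : algebraMap K[X] (RatFunc K) h ≠ 0 := RatFunc.algebraMap_ne_zero hh
    have h2 : ((RatFunc.X : RatFunc K)⁻¹) ^ h.natDegree ≠ 0 :=
      pow_ne_zero _ (inv_ne_zero RatFunc.X_ne_zero)
    have h3 : (algebraMap K[X] (RatFunc K) h * (RatFunc.X : RatFunc K)⁻¹ ^ h.natDegree).intDegree
        = 0 := by
      rw [RatFunc.intDegree_mul h1 h2, inv_pow, RatFunc.intDegree_inv,
        RatFunc.intDegree_polynomial, ← RatFunc.algebraMap_X, ← map_pow,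
        RatFunc.intDegree_polynomial, Polynomial.natDegree_X_pow]
      ring
    refine ⟨⟨_, (mem_Oinf' (mul_ne_zero h1 h2)).2 h3.le⟩, ?_, rfl⟩
    rw [isUnit_Oinf]
    exact ⟨mul_ne_zero h1 h2, h3⟩

end Run7.h576.WC
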